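import Mathlib

set_option autoImplicit false

/-!
MP_c36447, Q1 (the answer is no): the Hamming graph `H(12,6)` is not determined by its distance
spectrum.

The mate.  Let `CP(6)` be the cocktail party graph on the twelve points `±e_1, …, ±e_6`, with
distance `1 - ⟨u,w⟩`.  Split the six indices into two blocks of size three.  The mate is the
subgraph of the Cartesian power `CP(6)^10` induced on the points for which the block pattern of
the first nine coordinates lies on a fixed isometric `18`-cycle of the `9`-cube.  It has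
`18 * 3^9 * 2^9 * 12 = 6^12` vertices, it is an isometric subgraph of `CP(6)^10`, hence its
distance matrix is `10 J - Z Zᵀ` with `Zᵀ Z = 6^11 I_60` and `Zᵀ 1 = 0`, and the distance matrix of
`H(12,6)` has the same spectrum `10 * 6^12, (-6^11)^60, 0`.  Its diameter is `20` (that of
`H(12,6)` is `12`).
-/

namespace Pool.Agent.Results.MP_c36447_co.HammingMate

open Finset

/-! ### The notions of the problem -/

/-- The distance matrix of a graph. -/
noncomputable def distMat {V : Type} (G : SimpleGraph V) : Matrix V V ℝ :=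
  Matrix.of fun u v => (G.dist u v : ℝ)

/-- Distance-cospectral graphs: the (real symmetric) distance matrices have the same
characteristic polynomial, that is the same eigenvalues with the same multiplicities. -/
def DistanceCospectral {V W : Type} [Fintype V] [DecidableEq V] [Fintype W] [DecidableEq W]
    (G : SimpleGraph V) (H : SimpleGraph W) : Prop :=
  (distMat G).charpoly = (distMat H).charpoly

/-- `Γ` is determined by its distance spectrum: every (finite) connected graph that is
distance-cospectral with `Γ` is isomorphic to `Γ`. -/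
def DeterminedByDistanceSpectrum {V : Type} [Fintype V] [DecidableEq V]
    (Γ : SimpleGraph V) : Prop :=
  ∀ (W : Type) [Fintype W] [DecidableEq W] (G : SimpleGraph W),
    G.Connected → DistanceCospectral G Γ → Nonempty (G ≃g Γ)

/-- The Hamming graph `H(d,q)`: words of length `d` over an alphabet of size `q`, adjacent when
they differ in exactly one coordinate. -/
def hamming (d q : ℕ) : SimpleGraph (Fin d → Fin q) where
  Adj x y := hammingDist x y = 1
  symm := ⟨fun x y h => by rwa [hammingDist_comm]⟩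
  loopless := ⟨fun x h => by simp at h⟩

/-! ### Graph distance from a metric with unit steps -/

theorem walk_lower {V : Type} (G : SimpleGraph V) (δ : V → V → ℕ)
    (h0 : ∀ x, δ x x = 0) (ht : ∀ x y z, δ x z ≤ δ x y + δ y z)
    (hG : ∀ x y, G.Adj x y → δ x y = 1) :
    ∀ {x y : V} (w : G.Walk x y), δ x y ≤ w.length := by
  intro x y w
  induction w with
  | nil => simp [h0]
  | cons h p ih =>
    rename_i a b c
    have h1 := ht a b c
    have h2 := hG _ _ h
    simp only [SimpleGraph.Walk.length_cons]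
    omega

theorem walk_upper {V : Type} (G : SimpleGraph V) (δ : V → V → ℕ)
    (h0 : ∀ x, δ x x = 0) (h0' : ∀ x y, δ x y = 0 → x = y)
    (hstep : ∀ x y, x ≠ y → ∃ x', G.Adj x x' ∧ δ x' y + 1 = δ x y) :
    ∀ (n : ℕ) (x y : V), δ x y = n → ∃ w : G.Walk x y, w.length = n := by
  intro n
  induction n with
  | zero =>
    intro x y h
    have := h0' x y h
    subst this
    exact ⟨SimpleGraph.Walk.nil, rfl⟩
  | succ n ih =>
    intro x y h
    have hxy : x ≠ y := by
      rintro rfl
      rw [h0] at h
      omega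
    obtain ⟨x', ha, hd⟩ := hstep x y hxy
    obtain ⟨w, hw⟩ := ih x' y (by omega)
    exact ⟨SimpleGraph.Walk.cons ha w, by simp [hw]⟩

theorem dist_eq {V : Type} (G : SimpleGraph V) (δ : V → V → ℕ)
    (h0 : ∀ x, δ x x = 0) (h0' : ∀ x y, δ x y = 0 → x = y)
    (ht : ∀ x y z, δ x z ≤ δ x y + δ y z)
    (hG : ∀ x y, G.Adj x y ↔ δ x y = 1)
    (hstep : ∀ x y, x ≠ y → ∃ x', δ x x' = 1 ∧ δ x' y + 1 = δ x y) (x y : V) :
    G.Reachable x y ∧ G.dist x y = δ x y := by
  obtain ⟨w, hw⟩ := walk_upper G δ h0 h0'
    (fun x y h => by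
      obtain ⟨x', h1, h2⟩ := hstep x y h
      exact ⟨x', (hG _ _).2 h1, h2⟩) (δ x y) x y rfl
  refine ⟨⟨w⟩, le_antisymm ?_ ?_⟩
  · rw [← hw]; exact SimpleGraph.dist_le w
  · obtain ⟨p, hp⟩ := SimpleGraph.Reachable.exists_walk_length_eq_dist (⟨w⟩ : G.Reachable x y)
    rw [← hp]
    exact walk_lower G δ h0 ht (fun x y h => (hG x y).1 h) p

/-! ### Product coordinates -/

section coords

variable {V ι Q : Type} [Fintype ι] [DecidableEq ι]

/-- sum of local distances -/
def tot (e : Q → Q → ℕ) (crd : V → ι → Q) (x y : V) : ℕ := ∑ i, e (crd x i) (crd y i)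

theorem tot_step (e : Q → Q → ℕ) (e0 : ∀ u, e u u = 0) (crd : V → ι → Q) (x y x' : V) (j : ι)
    (hx' : ∀ i, i ≠ j → crd x' i = crd x i) (h1 : e (crd x j) (crd x' j) = 1)
    (h2 : e (crd x' j) (crd y j) + 1 = e (crd x j) (crd y j)) :
    tot e crd x x' = 1 ∧ tot e crd x' y + 1 = tot e crd x y := by
  unfold tot
  constructor
  · have h3 : ∑ i ∈ univ.erase j, e (crd x i) (crd x' i) = 0 := by
      refine Finset.sum_eq_zero fun i hi => ?_
      rw [hx' i (Finset.ne_of_mem_erase hi), e0]
    rw [← Finset.add_sum_erase _ _ (mem_univ j), h1, h3]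
  · rw [← Finset.add_sum_erase _ _ (mem_univ j), ← Finset.add_sum_erase (a := j) _ _ (mem_univ j),
      ← h2]
    have : ∑ i ∈ univ.erase j, e (crd x' i) (crd y i) =
        ∑ i ∈ univ.erase j, e (crd x i) (crd y i) := by
      refine Finset.sum_congr rfl fun i hi => ?_
      rw [hx' i (Finset.ne_of_mem_erase hi)]
    omega

theorem tot_dist (e : Q → Q → ℕ) (e0 : ∀ u, e u u = 0) (e0' : ∀ u w, e u w = 0 → u = w)
    (et : ∀ u v w, e u w ≤ e u v + e v w)
    (crd : V → ι → Q) (inj : Function.Injective crd)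
    (G : SimpleGraph V) (hG : ∀ x y, G.Adj x y ↔ tot e crd x y = 1)
    (hstep : ∀ x y, x ≠ y → ∃ (x' : V) (j : ι), (∀ i, i ≠ j → crd x' i = crd x i) ∧
      e (crd x j) (crd x' j) = 1 ∧ e (crd x' j) (crd y j) + 1 = e (crd x j) (crd y j))
    (x y : V) : G.Reachable x y ∧ G.dist x y = tot e crd x y := by
  refine dist_eq G (tot e crd) (fun x => ?_) (fun x y h => ?_) (fun x y z => ?_) hG
    (fun x y h => ?_) x y
  · unfold tot; exact Finset.sum_eq_zero fun i _ => e0 _
  · unfold tot at h
    refine inj (funext fun i => e0' _ _ ?_)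
    exact (Finset.sum_eq_zero_iff.1 h) i (mem_univ i)
  · unfold tot
    rw [← Finset.sum_add_distrib]
    exact Finset.sum_le_sum fun i _ => et _ _ _
  · obtain ⟨x', j, h1, h2, h3⟩ := hstep x y h
    exact ⟨x', tot_step e e0 crd x y x' j h1 h2 h3⟩

end coords

/-! ### The spectrum lemma -/

section spectrum

open Polynomial in
theorem charpoly_factor {V J : Type} [Fintype V] [DecidableEq V] [Fintype J] [DecidableEq J]
    (D : Matrix V V ℝ) (A : Matrix V (Option J) ℝ) (B : Matrix (Option J) V ℝ) (a b : ℝ)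
    (hD : D = A * B)
    (hBA : B * A = Matrix.diagonal (fun k : Option J => k.elim a (fun _ => b))) :
    (X : ℝ[X]) ^ (Fintype.card J + 1) * D.charpoly =
      X ^ Fintype.card V * ((X - C a) * (X - C b) ^ Fintype.card J) := by
  have h := Matrix.charpoly_mul_comm' A B
  rw [← hD, hBA, Matrix.charpoly_diagonal, Fintype.prod_option, Fintype.card_option] at h
  simpa using h

open Polynomial in
theorem charpoly_eq {V W J K : Type} [Fintype V] [DecidableEq V] [Fintype W] [DecidableEq W]
    [Fintype J] [DecidableEq J] [Fintype K] [DecidableEq K]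
    (D : Matrix V V ℝ) (A : Matrix V (Option J) ℝ) (B : Matrix (Option J) V ℝ)
    (E : Matrix W W ℝ) (A' : Matrix W (Option K) ℝ) (B' : Matrix (Option K) W ℝ) (a b : ℝ)
    (hVW : Fintype.card V = Fintype.card W) (hJK : Fintype.card J = Fintype.card K)
    (hD : D = A * B)
    (hBA : B * A = Matrix.diagonal (fun k : Option J => k.elim a (fun _ => b)))
    (hE : E = A' * B')
    (hBA' : B' * A' = Matrix.diagonal (fun k : Option K => k.elim a (fun _ => b))) :
    D.charpoly = E.charpoly := by
  have h1 := charpoly_factor D A B a b hD hBA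
  have h2 := charpoly_factor E A' B' a b hE hBA'
  rw [hVW, hJK] at h1
  have h3 := h1.trans h2.symm
  exact mul_left_cancel₀ (pow_ne_zero _ X_ne_zero) h3

end spectrum

/-! ### Sums over functions -/

section sums

theorem sum_coord {ι α : Type} [Fintype ι] [DecidableEq ι] [Fintype α] (j : ι) (f : α → ℝ) :
    ∑ x : ι → α, f (x j) = (Fintype.card α : ℝ) ^ (Fintype.card ι - 1) * ∑ a, f a := by
  rw [← (Equiv.funSplitAt j α).symm.sum_comp, Fintype.sum_prod_type]
  simp [Equiv.funSplitAt, Equiv.piSplitAt, Finset.mul_sum, Fintype.card_subtype_compl]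

theorem sum_two {ι α : Type} [Fintype ι] [DecidableEq ι] [Fintype α] (j l : ι) (hjl : j ≠ l)
    (f g : α → ℝ) (hg : ∑ a, g a = 0) :
    ∑ x : ι → α, f (x j) * g (x l) = 0 := by
  have h := Finset.prod_univ_sum (fun _ : ι => (univ : Finset α))
    (fun i a => (if i = j then f a else 1) * (if i = l then g a else 1))
  rw [Fintype.piFinset_univ] at h
  have h2 : ∀ x : ι → α, ∏ i, ((if i = j then f (x i) else 1) * (if i = l then g (x i) else 1)) =
      f (x j) * g (x l) := by
    intro x
    rw [Finset.prod_mul_distrib]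
    simp
  rw [Finset.sum_congr rfl fun x _ => (h2 x).symm, ← h]
  refine Finset.prod_eq_zero (mem_univ l) ?_
  simp [hjl.symm, hg]

end sums

/-! ### The mate -/

/-- positions: a point of the `18`-cycle and one free bit -/
abbrev P := Fin 18 × Bool

/-- the block pattern: an isometric `18`-cycle of the `9`-cube, times one edge -/
def pat (p : P) (j : Fin 10) : Bool :=
  if (j : ℕ) < 9 then decide ((p.1.val + 18 - j.val) % 18 < 9) else p.2

/-- the points of the mate -/
abbrev V := P × (Fin 10 → Fin 3 × Bool)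

/-- the twelve points of `CP(6)`: block, index in the block, sign -/
abbrev Q := Bool × Fin 3 × Bool

/-- the coordinates -/
def crd (x : V) (j : Fin 10) : Q := (pat x.1 j, x.2 j)

/-- the distance of `CP(6)` -/
def cpd (u w : Q) : ℕ := if u = w then 0 else if u.1 = w.1 ∧ u.2.1 = w.2.1 then 2 else 1

theorem cpd_self : ∀ u : Q, cpd u u = 0 := by decide +kernel
theorem cpd_zero : ∀ u w : Q, cpd u w = 0 → u = w := by decide +kernel
theorem cpd_symm : ∀ u w : Q, cpd u w = cpd w u := by decide +kernel
theorem cpd_tri : ∀ u v w : Q, cpd u w ≤ cpd u v + cpd v w := by decide +kernel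

/-- the mate -/
def mate : SimpleGraph V where
  Adj x y := tot cpd crd x y = 1
  symm := ⟨fun x y h => by
    rw [← h]; exact Finset.sum_congr rfl fun i _ => cpd_symm _ _⟩
  loopless := ⟨fun x h => by
    have : tot cpd crd x x = 0 := Finset.sum_eq_zero fun i _ => cpd_self _
    omega⟩

/-- the neighbours of a position -/
def nb (s : Fin 3) (p : P) : P :=
  if s = 0 then (p.1, !p.2) else if s = 1 then (p.1 + 1, p.2) else (p.1 - 1, p.2)

theorem pat_inj : ∀ p q : P, (∀ j, pat p j = pat q j) → p = q := by decide +kernel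

theorem pat_step : ∀ p q : P, p ≠ q → ∃ (s : Fin 3) (j : Fin 10),
    pat p j ≠ pat q j ∧ pat (nb s p) j = pat q j ∧ ∀ i, i ≠ j → pat (nb s p) i = pat p i := by
  decide +kernel

theorem pat_bal : ∀ (j : Fin 10) (b : Bool), (univ.filter fun p : P => pat p j = b).card = 18 := by
  decide +kernel

theorem crd_inj : Function.Injective crd := by
  rintro ⟨p, c⟩ ⟨q, d⟩ h
  have h1 : ∀ j, pat p j = pat q j := fun j => by
    have := congrFun h j
    simp only [crd, Prod.mk.injEq] at this
    exact this.1
  have h2 : c = d := funext fun j => by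
    have := congrFun h j
    simp only [crd, Prod.mk.injEq] at this
    exact this.2
  rw [pat_inj p q h1, h2]

theorem other : ∀ a : Fin 3, ∃ b : Fin 3, b ≠ a := by decide

theorem mate_dist (x y : V) : mate.Reachable x y ∧ mate.dist x y = tot cpd crd x y := by
  refine tot_dist cpd cpd_self cpd_zero cpd_tri crd crd_inj mate (fun x y => Iff.rfl) ?_ x y
  rintro ⟨p, c⟩ ⟨q, d⟩ hne
  by_cases hpq : p = q
  · subst hpq
    have hcd : c ≠ d := fun h => hne (by rw [h])
    obtain ⟨j, hj⟩ := Function.ne_iff.1 hcd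
    by_cases h1 : (c j).1 = (d j).1
    · obtain ⟨b, hb⟩ := other (c j).1
      have h2 : (c j).2 ≠ (d j).2 := fun h => hj (Prod.ext h1 h)
      refine ⟨(p, Function.update c j (b, true)), j, fun i hi => ?_, ?_, ?_⟩
      · simp [crd, Function.update_of_ne hi]
      · have : ¬ (c j = (b, true)) := fun h => hb (by rw [h])
        simp [crd, cpd, this, hb.symm]
      · have h3 : ¬ ((b, true) = d j) := fun h => hb (by rw [h1, ← h])
        have h4 : ¬ (b = (d j).1) := fun h => hb (by rw [h1, h])
        simp [crd, cpd, hj, h1, h3, h4]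
    · refine ⟨(p, Function.update c j (d j)), j, fun i hi => ?_, ?_, ?_⟩
      · simp [crd, Function.update_of_ne hi]
      · simp [crd, cpd, hj, h1]
      · simp [crd, cpd, hj, h1]
  · obtain ⟨s, j, h1, h2, h3⟩ := pat_step p q hpq
    refine ⟨(nb s p, Function.update c j (d j)), j, fun i hi => ?_, ?_, ?_⟩
    · simp [crd, Function.update_of_ne hi, h3 i hi]
    · simp [crd, cpd, h2, h1]
    · simp [crd, cpd, h2, h1]

/-! ### The factorisation for the mate -/

/-- the sign -/
def sg (s : Bool) : ℝ := if s then 1 else -1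

/-- the vector of a point of `CP(6)` -/
def zv (u : Q) (k : Bool × Fin 3) : ℝ := if (u.1, u.2.1) = k then sg u.2.2 else 0

theorem sg_mul (s t : Bool) : sg s * sg t = if s = t then 1 else -1 := by
  cases s <;> cases t <;> simp [sg]

theorem zv_gram (u w : Q) : ∑ k, zv u k * zv w k = 1 - (cpd u w : ℝ) := by
  obtain ⟨b, a, s⟩ := u
  obtain ⟨b', a', s'⟩ := w
  unfold zv
  simp only [ite_mul, zero_mul, Finset.sum_ite_eq, mem_univ, if_true]
  by_cases h : (b', a') = (b, a)
  · obtain ⟨rfl, rfl⟩ := Prod.mk.inj h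
    simp only [if_true, sg_mul]
    by_cases hs : s = s'
    · simp [hs, cpd]
    · simp [hs, cpd]
      norm_num
  · have h2 : ¬ (b = b' ∧ a = a') := fun hh => h (by rw [hh.1, hh.2])
    have h3 : ¬ ((b, a, s) = (b', a', s')) := fun hh => by
      simp only [Prod.mk.injEq] at hh
      exact h2 ⟨hh.1, hh.2.1⟩
    simp [h, cpd, h2, h3]

theorem zv_ne (u : Q) {k l : Bool × Fin 3} (h : k ≠ l) : zv u k * zv u l = 0 := by
  unfold zv
  by_cases h1 : (u.1, u.2.1) = k
  · have h2 : ¬ ((u.1, u.2.1) = l) := fun h3 => h (h1.symm.trans h3)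
    simp [h2]
  · simp [h1]

theorem zv_sq (u : Q) (k : Bool × Fin 3) :
    zv u k * zv u k = (if u.1 = k.1 then 1 else 0) * (if u.2.1 = k.2 then 1 else 0) := by
  unfold zv
  by_cases h1 : (u.1, u.2.1) = k
  · simp [← h1, sg_mul]
  · by_cases h2 : u.1 = k.1
    · by_cases h3 : u.2.1 = k.2
      · exact absurd (Prod.ext h2 h3) h1
      · simp [h1, h3]
    · simp [h1, h2]

/-- the sign change in one coordinate -/
def flp (j : Fin 10) (x : V) : V :=
  (x.1, fun i => if i = j then ((x.2 i).1, !(x.2 i).2) else x.2 i)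

theorem flp_inv (j : Fin 10) : Function.Involutive (flp j) := by
  rintro ⟨p, c⟩
  simp only [flp, Prod.mk.injEq, true_and]
  funext i
  by_cases h : i = j <;> simp [h]

/-- the vectors of the mate -/
def Z (x : V) (k : Fin 10 × (Bool × Fin 3)) : ℝ := zv (crd x k.1) k.2

theorem Z_flp_self (j : Fin 10) (x : V) (k : Bool × Fin 3) : Z (flp j x) (j, k) = - Z x (j, k) := by
  unfold Z zv crd flp sg
  by_cases h : (pat x.1 j, (x.2 j).1) = k
  · cases hs : (x.2 j).2 <;> simp [h, hs]
  · simp [h]

theorem Z_flp_ne (j i : Fin 10) (h : i ≠ j) (x : V) (k : Bool × Fin 3) :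
    Z (flp j x) (i, k) = Z x (i, k) := by
  unfold Z zv crd flp sg
  simp [h]

theorem Z_sum (k : Fin 10 × (Bool × Fin 3)) : ∑ x : V, Z x k = 0 := by
  obtain ⟨j, k⟩ := k
  have h := Equiv.sum_comp ((flp_inv j).toPerm (flp j)) (fun x => Z x (j, k))
  simp only [Function.Involutive.coe_toPerm, Z_flp_self, Finset.sum_neg_distrib] at h
  linarith

theorem Z_cross (j i : Fin 10) (h : i ≠ j) (k l : Bool × Fin 3) :
    ∑ x : V, Z x (j, k) * Z x (i, l) = 0 := by
  have h' := Equiv.sum_comp ((flp_inv j).toPerm (flp j)) (fun x => Z x (j, k) * Z x (i, l))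
  simp only [Function.Involutive.coe_toPerm, Z_flp_self, Z_flp_ne j i h, neg_mul,
    Finset.sum_neg_distrib] at h'
  linarith

theorem two_pts (a : Fin 3) :
    ∑ u : Fin 3 × Bool, (if u.1 = a then (1 : ℝ) else 0) = 2 := by
  rw [Finset.sum_boole]
  have h : ∀ a : Fin 3, (univ.filter fun u : Fin 3 × Bool => u.1 = a).card = 2 := by decide
  rw [h]
  norm_num

theorem Z_sq (j : Fin 10) (k : Bool × Fin 3) : ∑ x : V, Z x (j, k) * Z x (j, k) = 6 ^ 11 := by
  unfold Z
  simp only [zv_sq, crd]
  rw [Fintype.sum_prod_type]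
  have hms := Finset.sum_mul_sum (univ : Finset P) (univ : Finset (Fin 10 → Fin 3 × Bool))
    (fun p => if pat p j = k.1 then (1 : ℝ) else 0) (fun c => if (c j).1 = k.2 then (1 : ℝ) else 0)
  refine hms.symm.trans ?_
  rw [sum_coord j (fun u : Fin 3 × Bool => if u.1 = k.2 then (1 : ℝ) else 0)]
  rw [Finset.sum_boole]
  have h := pat_bal j k.1
  rw [h, two_pts]
  simp only [Fintype.card_prod, Fintype.card_fin, Fintype.card_bool]
  norm_num

/-- left factor -/
def A (x : V) (k : Option (Fin 10 × (Bool × Fin 3))) : ℝ := k.elim 10 (fun k => - Z x k)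

/-- right factor -/
def B (k : Option (Fin 10 × (Bool × Fin 3))) (x : V) : ℝ := k.elim 1 (fun k => Z x k)

theorem card_V : Fintype.card V = 6 ^ 12 := by
  simp

theorem mate_fac : distMat mate = Matrix.of A * Matrix.of B := by
  ext x y
  rw [Matrix.mul_apply, Fintype.sum_option]
  simp only [distMat, Matrix.of_apply, A, B, Option.elim, (mate_dist x y).2]
  rw [Fintype.sum_prod_type]
  simp only [neg_mul, Finset.sum_neg_distrib, Z, zv_gram, tot]
  push_cast
  rw [Finset.sum_sub_distrib]
  simp

theorem mate_BA : Matrix.of B * Matrix.of A =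
    Matrix.diagonal (fun k : Option (Fin 10 × (Bool × Fin 3)) =>
      k.elim ((10 : ℝ) * 6 ^ 12) (fun _ => - 6 ^ 11)) := by
  ext k l
  rw [Matrix.mul_apply]
  simp only [Matrix.of_apply]
  rcases k with _ | ⟨j, k⟩ <;> rcases l with _ | ⟨i, l⟩
  · simp only [A, B, Option.elim, Matrix.diagonal_apply_eq, Finset.sum_const, Finset.card_univ,
      card_V]
    norm_num
  · rw [Matrix.diagonal_apply_ne _ (by simp)]
    simp only [A, B, Option.elim, one_mul, Finset.sum_neg_distrib, Z_sum, neg_zero]
  · rw [Matrix.diagonal_apply_ne _ (by simp)]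
    simp only [A, B, Option.elim, ← Finset.sum_mul, Z_sum, zero_mul]
  · simp only [A, B, Option.elim, mul_neg, Finset.sum_neg_distrib]
    by_cases hij : i = j
    · subst hij
      by_cases hkl : k = l
      · subst hkl
        rw [Matrix.diagonal_apply_eq, Z_sq]
      · rw [Matrix.diagonal_apply_ne _ (by simpa using hkl)]
        rw [Finset.sum_eq_zero, neg_zero]
        intro x _
        exact zv_ne _ hkl
    · rw [Matrix.diagonal_apply_ne _ (by
        intro h
        simp only [Option.some.injEq, Prod.mk.injEq] at h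
        exact hij h.1.symm), Z_cross j i hij, neg_zero]

/-! ### The factorisation for `H(12,6)` -/

/-- the discrete distance -/
def dd (u w : Fin 6) : ℕ := if u = w then 0 else 1

theorem dd_self : ∀ u : Fin 6, dd u u = 0 := by decide
theorem dd_zero : ∀ u w : Fin 6, dd u w = 0 → u = w := by decide
theorem dd_tri : ∀ u v w : Fin 6, dd u w ≤ dd u v + dd v w := by decide

theorem tot_dd (x y : Fin 12 → Fin 6) : tot dd (fun x : Fin 12 → Fin 6 => x) x y =
    hammingDist x y := by
  unfold tot hammingDist dd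
  rw [Finset.card_filter]
  refine Finset.sum_congr rfl fun i _ => ?_
  by_cases h : x i = y i <;> simp [h]

theorem hamming_dist (x y : Fin 12 → Fin 6) :
    (hamming 12 6).dist x y = tot dd (fun x : Fin 12 → Fin 6 => x) x y := by
  refine (tot_dist dd dd_self dd_zero dd_tri (fun x : Fin 12 → Fin 6 => x) (fun _ _ h => h)
    (hamming 12 6) (fun x y => ?_) ?_ x y).2
  · rw [tot_dd]; rfl
  · intro x y hne
    obtain ⟨j, hj⟩ := Function.ne_iff.1 hne
    refine ⟨Function.update x j (y j), j, fun i hi => ?_, ?_, ?_⟩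
    · simp [Function.update_of_ne hi]
    · simp [dd, hj]
    · simp [dd, hj]

/-- rank factorisation of `I - J/6`, left -/
def xi (a : Fin 6) (k : Fin 5) : ℤ :=
  (if a = k.castSucc then 1 else 0) - (if a = Fin.last 5 then 1 else 0)

/-- six times the right factor of the rank factorisation of `I - J/6` -/
def yi (k : Fin 5) (b : Fin 6) : ℤ := (if b = k.castSucc then 6 else 0) - 1

theorem XYi : ∀ a b : Fin 6, ∑ k, xi a k * yi k b = 5 - 6 * (dd a b : ℤ) := by decide +kernel
theorem YXi : ∀ k m : Fin 5, ∑ a, yi k a * xi a m = if k = m then 6 else 0 := by decide +kernel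
theorem sumXi : ∀ k : Fin 5, ∑ a, xi a k = 0 := by decide +kernel
theorem sumYi : ∀ k : Fin 5, ∑ a, yi k a = 0 := by decide +kernel

/-- the left factor, real entries -/
noncomputable def Xf (a : Fin 6) (k : Fin 5) : ℝ := (xi a k : ℝ)

/-- the right factor, real entries -/
noncomputable def Yf (k : Fin 5) (b : Fin 6) : ℝ := (yi k b : ℝ) / 6

theorem XY (a b : Fin 6) : ∑ k, Xf a k * Yf k b = 1 - (dd a b : ℝ) - 1 / 6 := by
  have h : ((∑ k, xi a k * yi k b : ℤ) : ℝ) = ((5 - 6 * (dd a b : ℤ) : ℤ) : ℝ) := by rw [XYi]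
  push_cast at h
  simp only [Xf, Yf, ← mul_div_assoc, ← Finset.sum_div]
  rw [h]
  ring

theorem YX (k m : Fin 5) : ∑ a, Yf k a * Xf a m = if k = m then 1 else 0 := by
  have h : ((∑ a, yi k a * xi a m : ℤ) : ℝ) = ((if k = m then 6 else 0 : ℤ) : ℝ) := by rw [YXi]
  push_cast at h
  simp only [Xf, Yf, div_mul_eq_mul_div, ← Finset.sum_div]
  rw [h]
  split_ifs <;> norm_num

theorem sumX (k : Fin 5) : ∑ a, Xf a k = 0 := by
  have h : ((∑ a, xi a k : ℤ) : ℝ) = ((0 : ℤ) : ℝ) := by rw [sumXi]
  push_cast at h
  exact h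

theorem sumY (k : Fin 5) : ∑ a, Yf k a = 0 := by
  have h : ((∑ a, yi k a : ℤ) : ℝ) = ((0 : ℤ) : ℝ) := by rw [sumYi]
  push_cast at h
  simp only [Yf, ← Finset.sum_div]
  rw [h, zero_div]

/-- left factor -/
noncomputable def A' (x : Fin 12 → Fin 6) (k : Option (Fin 12 × Fin 5)) : ℝ :=
  k.elim 10 (fun k => - Xf (x k.1) k.2)

/-- right factor -/
noncomputable def B' (k : Option (Fin 12 × Fin 5)) (x : Fin 12 → Fin 6) : ℝ :=
  k.elim 1 (fun k => Yf k.2 (x k.1))

theorem ham_fac : distMat (hamming 12 6) = Matrix.of A' * Matrix.of B' := by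
  ext x y
  rw [Matrix.mul_apply, Fintype.sum_option]
  simp only [distMat, Matrix.of_apply, A', B', Option.elim, hamming_dist x y]
  rw [Fintype.sum_prod_type]
  simp only [neg_mul, Finset.sum_neg_distrib, XY, tot]
  push_cast
  rw [Finset.sum_sub_distrib, Finset.sum_sub_distrib]
  simp
  ring

theorem ham_BA : Matrix.of B' * Matrix.of A' =
    Matrix.diagonal (fun k : Option (Fin 12 × Fin 5) =>
      k.elim ((10 : ℝ) * 6 ^ 12) (fun _ => - 6 ^ 11)) := by
  ext k l
  rw [Matrix.mul_apply]
  simp only [Matrix.of_apply]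
  rcases k with _ | ⟨j, k⟩ <;> rcases l with _ | ⟨i, l⟩
  · simp only [A', B', Option.elim, Matrix.diagonal_apply_eq, Finset.sum_const, Finset.card_univ,
      Fintype.card_fun, Fintype.card_fin]
    norm_num
  · rw [Matrix.diagonal_apply_ne _ (by simp)]
    simp only [A', B', Option.elim, one_mul, Finset.sum_neg_distrib]
    rw [sum_coord i (fun a => Xf a l), sumX, mul_zero, neg_zero]
  · rw [Matrix.diagonal_apply_ne _ (by simp)]
    simp only [A', B', Option.elim, ← Finset.sum_mul]
    rw [sum_coord j (fun a => Yf k a), sumY, mul_zero, zero_mul]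
  · simp only [A', B', Option.elim, mul_neg, Finset.sum_neg_distrib]
    by_cases hij : j = i
    · subst hij
      rw [sum_coord j (fun a => Yf k a * Xf a l), YX]
      by_cases hkl : k = l
      · subst hkl
        rw [Matrix.diagonal_apply_eq]
        simp
      · rw [Matrix.diagonal_apply_ne _ (by simpa using hkl)]
        simp [hkl]
    · rw [Matrix.diagonal_apply_ne _ (by
        intro h
        simp only [Option.some.injEq, Prod.mk.injEq] at h
        exact hij h.1), sum_two j i hij (fun a => Yf k a) (fun a => Xf a l) (sumX l), neg_zero]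

theorem cospectral : DistanceCospectral mate (hamming 12 6) := by
  unfold DistanceCospectral
  refine charpoly_eq _ _ _ _ _ _ _ _ ?_ ?_ mate_fac mate_BA ham_fac ham_BA
  · rw [card_V]; simp
  · simp

/-! ### Conclusion -/

theorem mate_connected : mate.Connected :=
  { preconnected := fun x y => (mate_dist x y).1
    nonempty := ⟨(0, false), fun _ => (0, false)⟩ }

theorem mate_far : mate.dist ((0, false), fun _ => (0, false)) ((0, false), fun _ => (0, true)) =
    20 := by
  rw [(mate_dist _ _).2]
  simp [tot, crd, cpd]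

theorem ham_near (x y : Fin 12 → Fin 6) : (hamming 12 6).dist x y ≤ 12 := by
  rw [hamming_dist, tot_dd]
  simpa using hammingDist_le_card_fintype (x := x) (y := y)

theorem not_iso : IsEmpty (mate ≃g hamming 12 6) := by
  refine ⟨fun φ => ?_⟩
  have hle : ∀ x y : V, mate.dist x y ≤ (hamming 12 6).dist (φ x) (φ y) := by
    intro x y
    have hr : (hamming 12 6).Reachable (φ x) (φ y) := by
      obtain ⟨w⟩ := (mate_dist x y).1
      exact ⟨w.map φ.toHom⟩
    obtain ⟨w, hw⟩ := hr.exists_walk_length_eq_dist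
    have h := SimpleGraph.dist_le (w.map φ.symm.toHom)
    rw [SimpleGraph.Walk.length_map, hw] at h
    simpa using h
  have h1 := hle ((0, false), fun _ => (0, false)) ((0, false), fun _ => (0, true))
  rw [mate_far] at h1
  have h2 := ham_near (φ ((0, false), fun _ => (0, false))) (φ ((0, false), fun _ => (0, true)))
  omega

/-- **MP_c36447, Q1: the answer is no.**  It is false that every Hamming graph `H(d,q)` with
`q ≠ 4` is determined by its distance spectrum.  In fact there is a connected graph `G` on `6^12`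
vertices which has the same distance spectrum as `H(12,6)`, while `G` has two vertices at
distance `20` and all distances in `H(12,6)` are at most `12`, so that `G` is not isomorphic to
`H(12,6)`. -/
theorem result :
    (¬ ∀ d q : ℕ, 1 ≤ d → 2 ≤ q → q ≠ 4 → DeterminedByDistanceSpectrum (hamming d q)) ∧
    ∃ (V : Type) (_ : Fintype V) (_ : DecidableEq V) (G : SimpleGraph V),
      Fintype.card V = 6 ^ 12 ∧ G.Connected ∧ DistanceCospectral G (hamming 12 6) ∧
      (∃ x y, G.dist x y = 20) ∧ (∀ x y, (hamming 12 6).dist x y ≤ 12) ∧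
      IsEmpty (G ≃g hamming 12 6) := by
  refine ⟨fun h => ?_, V, inferInstance, inferInstance, mate, card_V, mate_connected, cospectral,
    ⟨_, _, mate_far⟩, ham_near, not_iso⟩
  obtain ⟨φ⟩ := h 12 6 (by norm_num) (by norm_num) (by norm_num) V mate mate_connected cospectral
  exact not_iso.false φ

end Pool.Agent.Results.MP_c36447_co.HammingMate
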